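import Pool.Agent.H581R2.QE

/-!
# Elimination of a finite block of real variables, with real parameters
-/

set_option autoImplicit false
set_option linter.all false

namespace Pool.Agent.V11165.LA

open Pool.Agent.H581R2

/-- elimination of a finite block of variables -/
theorem exists_block (κ : Type) [Finite κ] : ∀ (σ : Type) (p : (κ ⊕ σ → ℝ) → Prop),
    SAP p → SAP (fun v : σ → ℝ => ∃ u : κ → ℝ, p (Sum.elim u v)) := by
  induction κ using Finite.induction_empty_option with
  | @of_equiv α β e ih =>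
    intro σ p hp
    have h1 : SAP (fun w : α ⊕ σ → ℝ => p (fun z => w (Sum.map e.symm id z))) :=
      SAP.preimage hp (φ := fun w z => w (Sum.map e.symm id z)) fun k => PF.coord _
    refine (ih σ _ h1).congr fun v => ?_
    constructor
    · rintro ⟨u, hu⟩
      refine ⟨u ∘ e, ?_⟩
      convert hu using 1
      funext z
      cases z <;> simp
    · rintro ⟨u, hu⟩
      refine ⟨u ∘ e.symm, ?_⟩
      convert hu using 1
      funext z
      cases z <;> simp
  | h_empty =>
    intro σ p hp
    have h1 : SAP (fun w : σ → ℝ => p (Sum.elim (fun e => e.elim) w)) :=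
      SAP.preimage hp (φ := fun w => Sum.elim (fun e => e.elim) w) fun k => by
        cases k with
        | inl e => exact e.elim
        | inr s => exact PF.coord s
    refine h1.congr fun v => ?_
    constructor
    · rintro ⟨u, hu⟩
      have : u = fun e => e.elim := funext fun e => e.elim
      rwa [this] at hu
    · intro hu
      exact ⟨_, hu⟩
  | @h_option α _ ih =>
    intro σ p hp
    have h1 : SAP (fun w : Option (α ⊕ σ) → ℝ =>
        p (Sum.elim (fun o => o.elim (w none) (fun k => w (some (Sum.inl k))))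
          (fun i => w (some (Sum.inr i))))) :=
      SAP.preimage hp (φ := fun w => Sum.elim (fun o => o.elim (w none)
        (fun k => w (some (Sum.inl k)))) (fun i => w (some (Sum.inr i)))) fun k => by
        cases k with
        | inl o =>
          cases o with
          | none => exact PF.coord _
          | some a => exact PF.coord _
        | inr s => exact PF.coord _
    refine (ih σ _ (SAP.exists_real h1)).congr fun v => ?_
    constructor
    · rintro ⟨u, hu⟩
      refine ⟨fun a => u (some a), u none, ?_⟩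
      have e : (Sum.elim (fun o => o.elim (u none) (fun k => u (some k))) v : Option α ⊕ σ → ℝ) =
          Sum.elim u v := by
        funext z
        rcases z with (_ | z) | z <;> rfl
      rw [← e] at hu
      exact hu
    · rintro ⟨u, t, hu⟩
      exact ⟨_, hu⟩

variable {σ κ : Type}

/-- polynomial functions with real coefficients; the coefficients are the values of the
parameters indexed by `ℝ` -/
def RPF (f : (σ → ℝ) → ℝ) : Prop :=
  ∃ F : (σ ⊕ ℝ → ℝ) → ℝ, PF F ∧ ∀ v, f v = F (Sum.elim v id)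

lemma RPF.coord (i : σ) : RPF (fun v : σ → ℝ => v i) :=
  ⟨fun w => w (Sum.inl i), PF.coord _, fun v => rfl⟩

lemma RPF.const (r : ℝ) : RPF (fun _ : σ → ℝ => r) :=
  ⟨fun w => w (Sum.inr r), PF.coord _, fun v => rfl⟩

lemma RPF.add {f g : (σ → ℝ) → ℝ} (hf : RPF f) (hg : RPF g) : RPF (fun v => f v + g v) := by
  obtain ⟨F, hF, h1⟩ := hf
  obtain ⟨G, hG, h2⟩ := hg
  exact ⟨fun w => F w + G w, hF.add hG, fun v => by simp only [h1, h2]⟩

lemma RPF.mul {f g : (σ → ℝ) → ℝ} (hf : RPF f) (hg : RPF g) : RPF (fun v => f v * g v) := by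
  obtain ⟨F, hF, h1⟩ := hf
  obtain ⟨G, hG, h2⟩ := hg
  exact ⟨fun w => F w * G w, hF.mul hG, fun v => by simp only [h1, h2]⟩

lemma RPF.sum {α : Type*} (s : Finset α) {f : α → (σ → ℝ) → ℝ} (hf : ∀ a, RPF (f a)) :
    RPF (fun v => ∑ a ∈ s, f a v) := by
  choose F hF h1 using hf
  exact ⟨fun w => ∑ a ∈ s, F a w, PF.sum s fun a _ => hF a,
    fun v => Finset.sum_congr rfl fun a _ => h1 a v⟩

/-- semialgebraic predicates with real parameters -/
def RSAP (p : (σ → ℝ) → Prop) : Prop :=
  ∃ P : (σ ⊕ ℝ → ℝ) → Prop, SAP P ∧ ∀ v, p v ↔ P (Sum.elim v id)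

lemma RSAP.congr {p q : (σ → ℝ) → Prop} (hp : RSAP p) (h : ∀ v, q v ↔ p v) : RSAP q := by
  obtain ⟨P, hP, h1⟩ := hp
  exact ⟨P, hP, fun v => (h v).trans (h1 v)⟩

lemma RSAP.eq {f g : (σ → ℝ) → ℝ} (hf : RPF f) (hg : RPF g) : RSAP (fun v => f v = g v) := by
  obtain ⟨F, hF, h1⟩ := hf
  obtain ⟨G, hG, h2⟩ := hg
  exact ⟨fun w => F w = G w, SAP.eq hF hG, fun v => by simp only [h1, h2]⟩

lemma RSAP.and {p q : (σ → ℝ) → Prop} (hp : RSAP p) (hq : RSAP q) :
    RSAP (fun v => p v ∧ q v) := by
  obtain ⟨P, hP, h1⟩ := hp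
  obtain ⟨R, hR, h2⟩ := hq
  exact ⟨fun w => P w ∧ R w, hP.and hR, fun v => by simp only [h1, h2]⟩

lemma RSAP.forall_fin {α : Type*} [Finite α] {p : α → (σ → ℝ) → Prop}
    (h : ∀ a, RSAP (p a)) : RSAP (fun v => ∀ a, p a v) := by
  classical
  have := Fintype.ofFinite α
  choose P hP h1 using h
  refine ⟨fun w => ∀ a ∈ (Finset.univ : Finset α), P a w, SAP.forall_mem _ fun a _ => hP a,
    fun v => ?_⟩
  simp only [Finset.mem_univ, true_imp_iff]
  exact forall_congr' fun a => h1 a v

lemma RSAP.exists_block [Finite κ] {p : (κ ⊕ σ → ℝ) → Prop} (hp : RSAP p) :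
    RSAP (fun v : σ → ℝ => ∃ u : κ → ℝ, p (Sum.elim u v)) := by
  obtain ⟨P, hP, h1⟩ := hp
  have h2 : SAP (fun w : κ ⊕ (σ ⊕ ℝ) → ℝ => P (fun z => w (Equiv.sumAssoc κ σ ℝ z))) :=
    SAP.preimage hP (φ := fun w z => w (Equiv.sumAssoc κ σ ℝ z)) fun k => PF.coord _
  refine ⟨_, LA.exists_block κ (σ ⊕ ℝ) _ h2, fun v => ?_⟩
  refine exists_congr fun u => ?_
  rw [h1]
  have : (Sum.elim (Sum.elim u v) id : (κ ⊕ σ) ⊕ ℝ → ℝ) =
      fun z => (Sum.elim u (Sum.elim v id) : κ ⊕ (σ ⊕ ℝ) → ℝ) (Equiv.sumAssoc κ σ ℝ z) := by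
    funext z
    rcases z with (z | z) | z <;> simp
  rw [this]

/-- a semialgebraic predicate depends only on the signs of finitely many continuous functions -/
lemma RSAP.signs {p : (σ → ℝ) → Prop} (hp : RSAP p) :
    ∃ Q : Finset ((σ → ℝ) → ℝ), (∀ q ∈ Q, Continuous q) ∧
      ∀ v w, (∀ q ∈ Q, SignType.sign (q v) = SignType.sign (q w)) → p v → p w := by
  classical
  obtain ⟨P, ⟨Q, hQ⟩, h1⟩ := hp
  refine ⟨Q.image fun q v => MvPolynomial.aeval (Sum.elim v id : σ ⊕ ℝ → ℝ) q, ?_, ?_⟩
  · intro q hq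
    obtain ⟨q', -, rfl⟩ := Finset.mem_image.1 hq
    have : (fun v : σ → ℝ => MvPolynomial.aeval (Sum.elim v id : σ ⊕ ℝ → ℝ) q') =
        fun v : σ → ℝ => MvPolynomial.eval (Sum.elim v id : σ ⊕ ℝ → ℝ)
          (MvPolynomial.map (algebraMap ℚ ℝ) q') := by
      funext v
      rw [MvPolynomial.eval_map, MvPolynomial.aeval_def]
    rw [this]
    refine (MvPolynomial.continuous_eval _).comp ?_
    refine continuous_pi fun z => ?_
    cases z with
    | inl s => exact continuous_apply s
    | inr r => exact continuous_const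
  · intro v w h hv
    rw [h1] at hv ⊢
    refine hQ _ _ (fun q hq => ?_) hv
    exact h _ (Finset.mem_image_of_mem _ hq)

/-- a nonempty set whose membership depends only on the signs of finitely many continuous
functions is locally closed near one of its points -/
theorem locally_closed {X : Type*} [TopologicalSpace X] {S : Set X} (Q : Finset (X → ℝ))
    (hc : ∀ q ∈ Q, Continuous q)
    (hS : ∀ v w, (∀ q ∈ Q, SignType.sign (q v) = SignType.sign (q w)) → v ∈ S → w ∈ S)
    (hne : S.Nonempty) :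
    ∃ U : Set X, IsOpen U ∧ (U ∩ S).Nonempty ∧ U ∩ closure S ⊆ S := by
  classical
  let Z : X → Finset (X → ℝ) := fun v => Q.filter fun q => q v = 0
  obtain ⟨v, hv, hmin⟩ : ∃ v ∈ S, ∀ w ∈ S, (Z v).card ≤ (Z w).card := by
    obtain ⟨n, hn, hmin⟩ : ∃ n, (∃ v ∈ S, (Z v).card = n) ∧
        ∀ k, (∃ v ∈ S, (Z v).card = k) → n ≤ k := by
      have hex : ∃ n, ∃ v ∈ S, (Z v).card = n := by
        obtain ⟨v, hv⟩ := hne
        exact ⟨_, v, hv, rfl⟩
      exact ⟨Nat.find hex, Nat.find_spec hex, fun k hk => Nat.find_min' hex hk⟩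
    obtain ⟨v, hv, hvn⟩ := hn
    exact ⟨v, hv, fun w hw => hvn ▸ hmin _ ⟨w, hw, rfl⟩⟩
  let U : Set X := ⋂ q ∈ Q, {w | q v ≠ 0 → SignType.sign (q w) = SignType.sign (q v)}
  have hU : IsOpen U := by
    refine isOpen_biInter_finset fun q hq => ?_
    rcases lt_trichotomy (q v) 0 with h | h | h
    · have : {w | q v ≠ 0 → SignType.sign (q w) = SignType.sign (q v)} = {w | q w < 0} := by
        ext w
        simp only [Set.mem_ofPred_eq]
        rw [sign_neg h]
        constructor
        · intro h1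
          exact sign_eq_neg_one_iff.1 (h1 h.ne)
        · intro h1 _
          exact sign_neg h1
      rw [this]
      exact isOpen_lt (hc q hq) continuous_const
    · have : {w | q v ≠ 0 → SignType.sign (q w) = SignType.sign (q v)} = Set.univ := by
        ext w
        simp [h]
      rw [this]
      exact isOpen_univ
    · have : {w | q v ≠ 0 → SignType.sign (q w) = SignType.sign (q v)} = {w | 0 < q w} := by
        ext w
        simp only [Set.mem_ofPred_eq]
        rw [sign_pos h]
        constructor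
        · intro h1
          exact sign_eq_one_iff.1 (h1 h.ne')
        · intro h1 _
          exact sign_pos h1
      rw [this]
      exact isOpen_lt continuous_const (hc q hq)
  have hUmem : ∀ w, w ∈ U ↔ ∀ q ∈ Q, q v ≠ 0 → SignType.sign (q w) = SignType.sign (q v) := by
    intro w
    simp [U]
  refine ⟨U, hU, ⟨v, (hUmem v).2 fun _ _ _ => rfl, hv⟩, ?_⟩
  -- on `U ∩ S` the zero sets are those of `v`
  have hz : ∀ s ∈ U ∩ S, ∀ q ∈ Q, q v = 0 → q s = 0 := by
    rintro s ⟨hsU, hsS⟩ q hq hq0
    have hsub : Z s ⊆ Z v := by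
      intro r hr
      obtain ⟨hr1, hr2⟩ := Finset.mem_filter.1 hr
      refine Finset.mem_filter.2 ⟨hr1, ?_⟩
      by_contra h
      have := (hUmem s).1 hsU r hr1 h
      rw [hr2, sign_zero] at this
      exact h (sign_eq_zero_iff.1 this.symm)
    have heq : Z s = Z v := Finset.eq_of_subset_of_card_le hsub (hmin s hsS)
    have : q ∈ Z s := by
      rw [heq]
      exact Finset.mem_filter.2 ⟨hq, hq0⟩
    exact (Finset.mem_filter.1 this).2
  rintro w ⟨hwU, hwS⟩
  refine hS v w (fun q hq => ?_) hv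
  by_cases h : q v = 0
  · have h1 : w ∈ closure (U ∩ S) := hU.inter_closure ⟨hwU, hwS⟩
    have h2 : closure (U ∩ S) ⊆ {x | q x = 0} :=
      closure_minimal (fun s hs => hz s hs q hq h) (isClosed_eq (hc q hq) continuous_const)
    have h3 : q w = 0 := h2 h1
    rw [h, h3]
  · exact ((hUmem w).1 hwU q hq h).symm

end Pool.Agent.V11165.LA
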