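import Pool.Agent.V11165.LA.Vec

/-!
# The group of local automorphisms is closed
-/

set_option autoImplicit false
set_option linter.all false

namespace Pool.Agent.V11165.LA

variable {𝕜 : Type*} [RCLike 𝕜] {A : Type*} [NormedAddCommGroup A] [NormedSpace 𝕜 A]

/-- local automorphisms -/
def IsLocAut (m : A →ₗ[𝕜] A →ₗ[𝕜] A) (φ : A →L[𝕜] A) : Prop :=
  ∀ x : A, ∃ ψ : A →L[𝕜] A, IsAut m ψ ∧ φ x = ψ x

lemma isAut_one (m : A →ₗ[𝕜] A →ₗ[𝕜] A) : IsAut m (1 : A →L[𝕜] A) :=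
  ⟨Function.bijective_id, fun _ _ => rfl⟩

lemma IsAut.mul {m : A →ₗ[𝕜] A →ₗ[𝕜] A} {φ ψ : A →L[𝕜] A} (hφ : IsAut m φ) (hψ : IsAut m ψ) :
    IsAut m (φ * ψ) :=
  ⟨hφ.1.comp hψ.1, fun a b => by
    show φ (ψ (m a b)) = m (φ (ψ a)) (φ (ψ b))
    rw [hψ.2, hφ.2]⟩

lemma IsAut.inv [FiniteDimensional 𝕜 A] {m : A →ₗ[𝕜] A →ₗ[𝕜] A} {φ : A →L[𝕜] A}
    (hφ : IsAut m φ) : ∃ ψ : A →L[𝕜] A, IsAut m ψ ∧ (∀ x, ψ (φ x) = x) ∧ ∀ x, φ (ψ x) = x := by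
  obtain ⟨ψ, h1, h2⟩ := exists_inv hφ.1
  have h1' : ∀ x, φ (ψ x) = x := fun x => congrArg (fun f : A →L[𝕜] A => f x) h1
  have h2' : ∀ x, ψ (φ x) = x := fun x => congrArg (fun f : A →L[𝕜] A => f x) h2
  refine ⟨ψ, ⟨Function.bijective_iff_has_inverse.2 ⟨φ, h1', h2'⟩, fun a b => ?_⟩, h2', h1'⟩
  apply hφ.1.1
  rw [h1', hφ.2, h1', h1']

lemma orb_symm [FiniteDimensional 𝕜 A] {m : A →ₗ[𝕜] A →ₗ[𝕜] A} {x y : A} (h : y ∈ orb m x) :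
    x ∈ orb m y := by
  obtain ⟨φ, hφ, rfl⟩ := h
  obtain ⟨ψ, hψ, h1, -⟩ := hφ.inv
  exact ⟨ψ, hψ, h1 x⟩

lemma orb_trans {m : A →ₗ[𝕜] A →ₗ[𝕜] A} {x y z : A} (h : y ∈ orb m x) (h' : z ∈ orb m y) :
    z ∈ orb m x := by
  obtain ⟨φ, hφ, rfl⟩ := h
  obtain ⟨ψ, hψ, rfl⟩ := h'
  exact ⟨ψ * φ, hψ.mul hφ, rfl⟩

lemma closure_orb_subset {m : A →ₗ[𝕜] A →ₗ[𝕜] A} {x y : A} (h : y ∈ closure (orb m x)) :
    closure (orb m y) ⊆ closure (orb m x) := by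
  refine closure_minimal ?_ isClosed_closure
  rintro z ⟨ψ, hψ, rfl⟩
  exact map_mem_closure ψ.continuous h fun w hw => orb_trans hw ⟨ψ, hψ, rfl⟩

/-- two points in each other's orbit closure are in the same orbit -/
theorem mem_orb_of_closure [FiniteDimensional 𝕜 A] {m : A →ₗ[𝕜] A →ₗ[𝕜] A} {x y : A}
    (h1 : y ∈ closure (orb m x)) (h2 : x ∈ closure (orb m y)) : y ∈ orb m x := by
  letI : NormedSpace ℝ A := NormedSpace.restrictScalars ℝ 𝕜 A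
  haveI : IsScalarTower ℝ 𝕜 A := RestrictScalars.isScalarTower ℝ 𝕜 A
  obtain ⟨Q, hc, hQ⟩ := orb_signs m x
  obtain ⟨U, hU, ⟨s, hsU, hs⟩, hU2⟩ := locally_closed Q hc hQ ⟨x, 1, isAut_one m, rfl⟩
  have h3 : s ∈ closure (orb m y) := closure_orb_subset h2 (subset_closure hs)
  obtain ⟨t, htU, ht⟩ := mem_closure_iff.1 h3 U hU hsU
  have h4 : t ∈ orb m x := hU2 ⟨htU, closure_orb_subset h1 (subset_closure ht)⟩
  exact orb_trans h4 (orb_symm ht)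

section

variable [FiniteDimensional 𝕜 A] (m : A →ₗ[𝕜] A →ₗ[𝕜] A)

/-- local automorphisms are invertible -/
lemma IsLocAut.exists_unit {m : A →ₗ[𝕜] A →ₗ[𝕜] A} {φ : A →L[𝕜] A} (h : IsLocAut m φ) :
    ∃ g : (A →L[𝕜] A)ˣ, (g : A →L[𝕜] A) = φ := by
  have hinj : Function.Injective (φ : A →ₗ[𝕜] A) := by
    rw [injective_iff_map_eq_zero]
    intro x hx
    obtain ⟨ψ, hψ, hxx⟩ := h x
    have : φ x = 0 := hx
    rw [hxx] at this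
    apply hψ.1.1
    rw [this, map_zero]
  have hbij : Function.Bijective φ := ⟨hinj, LinearMap.injective_iff_surjective.1 hinj⟩
  obtain ⟨ψ, h1, h2⟩ := exists_inv hbij
  exact ⟨⟨φ, ψ, h1, h2⟩, rfl⟩

lemma locAut_inv {m : A →ₗ[𝕜] A →ₗ[𝕜] A} {g : (A →L[𝕜] A)ˣ} (hg : IsLocAut m g) :
    IsLocAut m ((g⁻¹ : (A →L[𝕜] A)ˣ) : A →L[𝕜] A) := by
  intro x
  have e : (g : A →L[𝕜] A) (((g⁻¹ : (A →L[𝕜] A)ˣ) : A →L[𝕜] A) x) = x := by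
    have := congrArg (fun f : A →L[𝕜] A => f x) g.mul_inv
    exact this
  obtain ⟨ψ, hψ, h⟩ := hg (((g⁻¹ : (A →L[𝕜] A)ˣ) : A →L[𝕜] A) x)
  obtain ⟨χ, hχ, h1, -⟩ := hψ.inv
  refine ⟨χ, hχ, ?_⟩
  rw [e] at h
  conv_rhs => rw [h, h1]

/-- the group of local automorphisms -/
def locAutGroup : Subgroup (A →L[𝕜] A)ˣ where
  carrier := {g | IsLocAut m g}
  one_mem' := fun x => ⟨1, isAut_one m, rfl⟩
  mul_mem' := by
    intro a b ha hb x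
    obtain ⟨ψ, hψ, h1⟩ := hb x
    obtain ⟨χ, hχ, h2⟩ := ha ((b : A →L[𝕜] A) x)
    refine ⟨χ * ψ, hχ.mul hψ, ?_⟩
    show (a : A →L[𝕜] A) ((b : A →L[𝕜] A) x) = χ (ψ x)
    rw [h2, h1]
  inv_mem' := fun {g} hg => locAut_inv hg

theorem isClosed_locAut : IsClosed (locAutGroup m : Set (A →L[𝕜] A)ˣ) := by
  rw [← closure_subset_iff_isClosed]
  intro T hT x
  have hcont : ∀ y : A, Continuous fun g : (A →L[𝕜] A)ˣ => (g : A →L[𝕜] A) y := fun y =>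
    (ContinuousLinearMap.apply 𝕜 A y).continuous.comp Units.continuous_val
  have hconti : ∀ y : A, Continuous fun g : (A →L[𝕜] A)ˣ =>
      ((g⁻¹ : (A →L[𝕜] A)ˣ) : A →L[𝕜] A) y := fun y =>
    (hcont y).comp continuous_inv
  have h1 : (T : A →L[𝕜] A) x ∈ closure (orb m x) := by
    refine map_mem_closure (f := fun g : (A →L[𝕜] A)ˣ => (g : A →L[𝕜] A) x) (hcont x) hT
      fun g hg => ?_
    obtain ⟨ψ, hψ, h⟩ := hg x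
    exact ⟨ψ, hψ, h.symm⟩
  have h2 : x ∈ closure (orb m ((T : A →L[𝕜] A) x)) := by
    have h3 : ((T⁻¹ : (A →L[𝕜] A)ˣ) : A →L[𝕜] A) ((T : A →L[𝕜] A) x) ∈
        closure (orb m ((T : A →L[𝕜] A) x)) := by
      refine map_mem_closure (f := fun g : (A →L[𝕜] A)ˣ =>
        ((g⁻¹ : (A →L[𝕜] A)ˣ) : A →L[𝕜] A) ((T : A →L[𝕜] A) x)) (hconti _) hT fun g hg => ?_
      obtain ⟨ψ, hψ, h⟩ := locAut_inv hg ((T : A →L[𝕜] A) x)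
      exact ⟨ψ, hψ, h.symm⟩
    have e : ((T⁻¹ : (A →L[𝕜] A)ˣ) : A →L[𝕜] A) ((T : A →L[𝕜] A) x) = x :=
      congrArg (fun f : A →L[𝕜] A => f x) T.inv_mul
    rwa [e] at h3
  obtain ⟨ψ, hψ, h⟩ := mem_orb_of_closure h1 h2
  exact ⟨ψ, hψ, h.symm⟩

end

end Pool.Agent.V11165.LA
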