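import Pool.Agent.V11165.LA.Block

/-!
# Vector valued polynomial functions, and orbits of the automorphism group
-/

set_option autoImplicit false
set_option linter.all false

namespace Pool.Agent.V11165.LA

open Pool.Agent.H581R2

variable {σ : Type} {V W X : Type*} [AddCommGroup V] [Module ℝ V] [AddCommGroup W] [Module ℝ W]
  [AddCommGroup X] [Module ℝ X]

/-- vector valued polynomial functions -/
def VPF (f : (σ → ℝ) → V) : Prop := ∀ ℓ : V →ₗ[ℝ] ℝ, RPF (fun w => ℓ (f w))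

lemma VPF.const (x : V) : VPF (fun _ : σ → ℝ => x) := fun ℓ => RPF.const (ℓ x)

lemma VPF.smul {f : (σ → ℝ) → ℝ} {g : (σ → ℝ) → V} (hf : RPF f) (hg : VPF g) :
    VPF (fun w => f w • g w) := by
  intro ℓ
  have : (fun w => ℓ (f w • g w)) = fun w => f w * ℓ (g w) := by
    funext w
    rw [map_smul, smul_eq_mul]
  rw [this]
  exact hf.mul (hg ℓ)

lemma VPF.sum {α : Type*} (s : Finset α) {f : α → (σ → ℝ) → V} (hf : ∀ a, VPF (f a)) :
    VPF (fun w => ∑ a ∈ s, f a w) := by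
  intro ℓ
  have : (fun w => ℓ (∑ a ∈ s, f a w)) = fun w => ∑ a ∈ s, ℓ (f a w) := by
    funext w
    rw [map_sum]
  rw [this]
  exact RPF.sum s fun a => hf a ℓ

/-- the generic vector -/
lemma VPF.gen {κ : Type} [Fintype κ] (e : κ → σ) (γ : κ → V) :
    VPF (fun w : σ → ℝ => ∑ k, w (e k) • γ k) :=
  VPF.sum _ fun k => VPF.smul (RPF.coord (e k)) (VPF.const _)

lemma VPF.bilin [FiniteDimensional ℝ V] [FiniteDimensional ℝ W] (B : V →ₗ[ℝ] W →ₗ[ℝ] X)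
    {f : (σ → ℝ) → V} {g : (σ → ℝ) → W} (hf : VPF f) (hg : VPF g) :
    VPF (fun w => B (f w) (g w)) := by
  let b := Module.finBasis ℝ V
  let c := Module.finBasis ℝ W
  have : (fun w => B (f w) (g w)) = fun w => ∑ i, ∑ j,
      (b.coord i (f w) * c.coord j (g w)) • B (b i) (c j) := by
    funext w
    conv_lhs => rw [← b.sum_repr (f w), ← c.sum_repr (g w)]
    rw [map_sum B, LinearMap.sum_apply]
    refine Finset.sum_congr rfl fun i _ => ?_
    rw [map_sum]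
    refine Finset.sum_congr rfl fun j _ => ?_
    rw [map_smul, map_smul, LinearMap.smul_apply, smul_smul]
    simp only [Module.Basis.coord_apply]
    rw [mul_comm]
  rw [this]
  exact VPF.sum _ fun i => VPF.sum _ fun j =>
    VPF.smul ((hf (b.coord i)).mul (hg (c.coord j))) (VPF.const _)

lemma VPF.eq [FiniteDimensional ℝ V] {f g : (σ → ℝ) → V} (hf : VPF f) (hg : VPF g) :
    RSAP (fun w => f w = g w) := by
  let b := Module.finBasis ℝ V
  refine RSAP.congr (RSAP.forall_fin (p := fun i w => b.coord i (f w) = b.coord i (g w))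
    fun i => RSAP.eq (hf _) (hg _)) fun w => ?_
  constructor
  · intro h i
    rw [h]
  · intro h
    refine b.ext_elem fun i => ?_
    exact h i

section alg

variable {𝕜 : Type*} [RCLike 𝕜] {A : Type*} [NormedAddCommGroup A] [NormedSpace 𝕜 A]
  [NormedSpace ℝ A] [IsScalarTower ℝ 𝕜 A] [FiniteDimensional 𝕜 A]

lemma finReal (𝕜 : Type*) [RCLike 𝕜] (A : Type*) [NormedAddCommGroup A] [NormedSpace 𝕜 A]
    [NormedSpace ℝ A] [IsScalarTower ℝ 𝕜 A] [FiniteDimensional 𝕜 A] : FiniteDimensional ℝ A :=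
  FiniteDimensional.trans ℝ 𝕜 A

lemma finRealEnd (𝕜 : Type*) [RCLike 𝕜] (A : Type*) [NormedAddCommGroup A] [NormedSpace 𝕜 A]
    [NormedSpace ℝ A] [IsScalarTower ℝ 𝕜 A] [FiniteDimensional 𝕜 A] :
    FiniteDimensional ℝ (A →L[𝕜] A) := by
  haveI : FiniteDimensional 𝕜 (A →L[𝕜] A) := inferInstance
  exact FiniteDimensional.trans ℝ 𝕜 (A →L[𝕜] A)

/-- automorphisms -/
def IsAut (m : A →ₗ[𝕜] A →ₗ[𝕜] A) (φ : A →L[𝕜] A) : Prop :=
  Function.Bijective φ ∧ ∀ a b, φ (m a b) = m (φ a) (φ b)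

/-- the product as a real bilinear map -/
noncomputable def mR (m : A →ₗ[𝕜] A →ₗ[𝕜] A) : A →ₗ[ℝ] A →ₗ[ℝ] A :=
  LinearMap.mk₂ ℝ (fun a b => m a b) (fun a b c => by simp)
    (fun r a b => by
      have : (r • a : A) = (algebraMap ℝ 𝕜 r) • a := (algebraMap_smul 𝕜 r a).symm
      rw [this, map_smul, LinearMap.smul_apply, algebraMap_smul])
    (fun a b c => by simp)
    (fun r a b => by
      have : (r • b : A) = (algebraMap ℝ 𝕜 r) • b := (algebraMap_smul 𝕜 r b).symm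
      rw [this, map_smul, algebraMap_smul])

/-- evaluation as a real bilinear map -/
noncomputable def evR : (A →L[𝕜] A) →ₗ[ℝ] A →ₗ[ℝ] A :=
  LinearMap.mk₂ ℝ (fun φ b => φ b) (fun a b c => by simp) (fun r a b => by simp)
    (fun a b c => by simp)
    (fun r a b => by
      have : (r • b : A) = (algebraMap ℝ 𝕜 r) • b := (algebraMap_smul 𝕜 r b).symm
      rw [this, map_smul, algebraMap_smul])

/-- composition as a real bilinear map -/
noncomputable def compR : (A →L[𝕜] A) →ₗ[ℝ] (A →L[𝕜] A) →ₗ[ℝ] (A →L[𝕜] A) :=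
  LinearMap.mk₂ ℝ (fun φ ψ => φ * ψ) (fun a b c => by rw [add_mul])
    (fun r a b => by rw [smul_mul_assoc])
    (fun a b c => by rw [mul_add]) (fun r a b => by rw [mul_smul_comm])

@[simp] lemma mR_apply (m : A →ₗ[𝕜] A →ₗ[𝕜] A) (a b : A) : mR m a b = m a b := rfl
@[simp] lemma evR_apply (φ : A →L[𝕜] A) (b : A) : evR φ b = φ b := rfl
@[simp] lemma compR_apply (φ ψ : A →L[𝕜] A) : compR φ ψ = φ * ψ := rfl

/-- the orbit of `x` -/
def orb (m : A →ₗ[𝕜] A →ₗ[𝕜] A) (x : A) : Set A := {y | ∃ φ : A →L[𝕜] A, IsAut m φ ∧ φ x = y}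

omit [NormedSpace ℝ A] [IsScalarTower ℝ 𝕜 A] in
/-- two sided inverses of bijective maps -/
lemma exists_inv {φ : A →L[𝕜] A} (h : Function.Bijective φ) :
    ∃ ψ : A →L[𝕜] A, φ * ψ = 1 ∧ ψ * φ = 1 := by
  let e : A ≃ₗ[𝕜] A := LinearEquiv.ofBijective (φ : A →ₗ[𝕜] A) h
  refine ⟨(e.symm.toContinuousLinearEquiv : A →L[𝕜] A), ?_, ?_⟩
  · ext x
    exact e.apply_symm_apply x
  · ext x
    exact e.symm_apply_apply x

lemma continuous_coord {ι : Type} [Fintype ι] [FiniteDimensional ℝ A] (β : Module.Basis ι ℝ A) :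
    Continuous (fun y : A => (fun i => β.repr y i : ι → ℝ)) :=
  continuous_pi fun i => (β.coord i).continuous_of_finiteDimensional

/-- the defining condition -/
def Cond {ι : Type} (m : A →ₗ[𝕜] A →ₗ[𝕜] A) (x : A) (β : ι → A) (φ ψ : A →L[𝕜] A) (y : A) :
    Prop :=
  ((compR φ ψ = 1 ∧ compR ψ φ = 1) ∧
      ∀ j k, evR φ (m (β j) (β k)) = mR m (evR φ (β j)) (evR φ (β k))) ∧ evR φ x = y

lemma Cond.of {ι : Type} (m : A →ₗ[𝕜] A →ₗ[𝕜] A) {x : A} (β : ι → A) {φ : A →L[𝕜] A} {y : A}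
    (hφ : IsAut m φ) (hxy : φ x = y) : ∃ ψ, Cond m x β φ ψ y := by
  obtain ⟨ψ, h1, h2⟩ := exists_inv hφ.1
  exact ⟨ψ, ⟨⟨h1, h2⟩, fun j k => hφ.2 _ _⟩, hxy⟩

lemma Cond.isAut {ι : Type} {m : A →ₗ[𝕜] A →ₗ[𝕜] A} {x : A} (β : Module.Basis ι ℝ A)
    {φ ψ : A →L[𝕜] A} {y : A} (h : Cond m x β φ ψ y) : IsAut m φ := by
  obtain ⟨⟨⟨h1, h2⟩, h3⟩, h4⟩ := h
  refine ⟨?_, ?_⟩
  · refine Function.bijective_iff_has_inverse.2 ⟨ψ, fun a => ?_, fun a => ?_⟩
    · exact congrArg (fun f : A →L[𝕜] A => f a) h2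
    · exact congrArg (fun f : A →L[𝕜] A => f a) h1
  · let B1 : A →ₗ[ℝ] A →ₗ[ℝ] A := (mR m).compr₂ (evR φ)
    let B2 : A →ₗ[ℝ] A →ₗ[ℝ] A := (mR m).compl₁₂ (evR φ) (evR φ)
    have hB : B1 = B2 := LinearMap.ext_basis β β fun j k => h3 j k
    intro a b
    exact congrArg (fun B : A →ₗ[ℝ] A →ₗ[ℝ] A => B a b) hB

/-- the orbits of the automorphism group are semialgebraic -/
theorem orb_signs (m : A →ₗ[𝕜] A →ₗ[𝕜] A) (x : A) :
    ∃ Q : Finset (A → ℝ), (∀ q ∈ Q, Continuous q) ∧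
      ∀ v w, (∀ q ∈ Q, SignType.sign (q v) = SignType.sign (q w)) → v ∈ orb m x → w ∈ orb m x := by
  classical
  haveI := finReal 𝕜 A
  haveI := finRealEnd 𝕜 A
  obtain ⟨n, β⟩ : ∃ n : ℕ, Nonempty (Module.Basis (Fin n) ℝ A) := ⟨_, ⟨Module.finBasis ℝ A⟩⟩
  obtain ⟨d, γ⟩ : ∃ n : ℕ, Nonempty (Module.Basis (Fin n) ℝ (A →L[𝕜] A)) :=
    ⟨_, ⟨Module.finBasis ℝ (A →L[𝕜] A)⟩⟩
  obtain ⟨β⟩ := β
  obtain ⟨γ⟩ := γ
  have hp : RSAP (fun w : (Fin d ⊕ Fin d) ⊕ Fin n → ℝ => Cond m x β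
      (∑ k, w (Sum.inl (Sum.inl k)) • γ k) (∑ k, w (Sum.inl (Sum.inr k)) • γ k)
      (∑ k, w (Sum.inr k) • β k)) := by
    have hΦ : VPF (fun w : (Fin d ⊕ Fin d) ⊕ Fin n → ℝ =>
      ∑ k, w (Sum.inl (Sum.inl k)) • γ k) := VPF.gen _ _
    have hΨ : VPF (fun w : (Fin d ⊕ Fin d) ⊕ Fin n → ℝ =>
      ∑ k, w (Sum.inl (Sum.inr k)) • γ k) := VPF.gen _ _
    have hY : VPF (fun w : (Fin d ⊕ Fin d) ⊕ Fin n → ℝ => ∑ k, w (Sum.inr k) • β k) :=
      VPF.gen _ _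
    refine RSAP.and (RSAP.and (RSAP.and ?_ ?_) ?_) ?_
    · exact VPF.eq (VPF.bilin compR hΦ hΨ) (VPF.const _)
    · exact VPF.eq (VPF.bilin compR hΨ hΦ) (VPF.const _)
    · refine RSAP.forall_fin fun j => RSAP.forall_fin fun k => VPF.eq ?_ ?_
      · exact VPF.bilin evR hΦ (VPF.const _)
      · exact VPF.bilin (mR m) (VPF.bilin evR hΦ (VPF.const _)) (VPF.bilin evR hΦ (VPF.const _))
    · exact VPF.eq (VPF.bilin evR hΦ (VPF.const _)) hY
  obtain ⟨Q, hQc, hQ⟩ := (RSAP.exists_block hp).signs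
  have key : ∀ y : A, y ∈ orb m x ↔ ∃ u : Fin d ⊕ Fin d → ℝ, Cond m x β
      (∑ k, u (Sum.inl k) • γ k) (∑ k, u (Sum.inr k) • γ k) (∑ k, β.repr y k • β k) := by
    intro y
    rw [β.sum_repr]
    constructor
    · rintro ⟨φ, hφ, hxy⟩
      obtain ⟨ψ, h⟩ := Cond.of m β hφ hxy
      refine ⟨Sum.elim (fun k => γ.repr φ k) (fun k => γ.repr ψ k), ?_⟩
      simp only [Sum.elim_inl, Sum.elim_inr]
      rw [γ.sum_repr, γ.sum_repr]
      exact h
    · rintro ⟨u, hu⟩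
      exact ⟨_, hu.isAut, hu.2⟩
  refine ⟨Q.image fun q y => q (fun i => β.repr y i : Fin n → ℝ), ?_, ?_⟩
  · intro q hq
    obtain ⟨q', hq', rfl⟩ := Finset.mem_image.1 hq
    exact (hQc q' hq').comp (continuous_coord β)
  · intro v w h hv
    rw [key] at hv ⊢
    exact hQ (fun i => β.repr v i) (fun i => β.repr w i)
      (fun q hq => h _ (Finset.mem_image_of_mem _ hq)) hv

end alg

end Pool.Agent.V11165.LA
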